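import Mathlib

set_option autoImplicit false

namespace Pool.Agent.Lib.MP_6b8fc7_nt.CS

open Classical in
lemma count_one (M : ℕ) (P : ℕ → Prop) (r N : ℕ) :
    ((Finset.Icc 1 N).filter (fun n => n % M = r ∧ P (n / M))).card ≤
      1 + ((Finset.Icc 1 (N / M)).filter (fun n => P n)).card := by
  have h1 : ((Finset.Icc 1 N).filter (fun n => n % M = r ∧ P (n / M))).card ≤
      (insert 0 ((Finset.Icc 1 (N / M)).filter (fun n => P n))).card := by
    apply Finset.card_le_card_of_injOn (fun n => n / M)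
    · intro n hn
      rw [Finset.mem_coe, Finset.mem_filter, Finset.mem_Icc] at hn
      rw [Finset.mem_coe, Finset.mem_insert, Finset.mem_filter, Finset.mem_Icc]
      rcases Nat.eq_zero_or_pos (n / M) with h | h
      · exact Or.inl h
      · exact Or.inr ⟨⟨h, Nat.div_le_div_right hn.1.2⟩, hn.2.2⟩
    · intro n hn n' hn' h
      rw [Finset.mem_coe, Finset.mem_filter] at hn hn'
      have h1 := hn.2.1
      have h2 := hn'.2.1
      have h3 : n / M = n' / M := h
      rw [← Nat.div_add_mod n M, ← Nat.div_add_mod n' M, h1, h2, h3]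
  refine h1.trans ((Finset.card_insert_le _ _).trans ?_)
  omega

open Classical in
lemma transfer (M : ℕ) (hM : 1 ≤ M) (E : ℕ → ℕ → Prop)
    (hE : ∀ r : ℕ, r < M → ∀ A : ℕ, ∀ᶠ N : ℕ in Filter.atTop,
      (((Finset.Icc 1 N).filter (fun n => E r n)).card : ℝ) ≤ N / (Real.log N) ^ A) :
    ∀ A : ℕ, ∀ᶠ N : ℕ in Filter.atTop,
      (((Finset.Icc 1 N).filter (fun n => E (n % M) (n / M))).card : ℝ) ≤
        N / (Real.log N) ^ A := by
  intro A
  have hM0 : (0 : ℝ) < M := by exact_mod_cast hM
  have hdiv : Filter.Tendsto (fun N : ℕ => N / M) Filter.atTop Filter.atTop :=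
    Nat.tendsto_div_const_atTop (by omega)
  have e1 : ∀ᶠ N : ℕ in Filter.atTop, ∀ r ∈ Finset.range M,
      (((Finset.Icc 1 (N / M)).filter (fun n => E r n)).card : ℝ) ≤
        ((N / M : ℕ) : ℝ) / (Real.log ((N / M : ℕ) : ℝ)) ^ (A + 1) := by
    rw [Filter.eventually_all_finset]
    intro r hr
    exact hdiv.eventually (hE r (Finset.mem_range.1 hr) (A + 1))
  have hlog : Filter.Tendsto (fun N : ℕ => Real.log (N : ℝ)) Filter.atTop Filter.atTop :=
    Real.tendsto_log_atTop.comp tendsto_natCast_atTop_atTop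
  have eo : ∀ᶠ N : ℕ in Filter.atTop, ‖(Real.log (N : ℝ)) ^ A‖ ≤ 1 / (2 * M) * ‖(N : ℝ)‖ := by
    have h := (Real.isLittleO_pow_log_id_atTop (n := A)).bound (c := 1 / (2 * M)) (by positivity)
    exact tendsto_natCast_atTop_atTop.eventually h
  filter_upwards [e1, eo, Filter.eventually_ge_atTop (2 * M * M), Filter.eventually_ge_atTop 1,
    hlog.eventually_ge_atTop (2 ^ (A + 2) : ℝ)] with N h1 ho hN hN1 hL
  have hN' : (1 : ℝ) ≤ N := by exact_mod_cast hN1
  have hlog1 : (1 : ℝ) ≤ Real.log N := by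
    have : (1 : ℝ) ≤ 2 ^ (A + 2) := one_le_pow₀ (by norm_num)
    linarith
  obtain ⟨m, hm⟩ : ∃ m, m = N / M := ⟨_, rfl⟩
  rw [← hm] at h1
  have hm2 : 2 * M ≤ m := by
    rw [hm]
    exact (Nat.le_div_iff_mul_le (by omega)).2 hN
  have hmN : (m : ℝ) ≤ N / M := by
    rw [le_div_iff₀ hM0]
    have : m * M ≤ N := by
      rw [hm]
      exact Nat.div_mul_le_self N M
    exact_mod_cast this
  have hsq : (N : ℝ) ≤ (m : ℝ) ^ 2 := by
    have : N ≤ m ^ 2 := by
      have h5 : N < M * (m + 1) := by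
        rw [hm]
        exact Nat.lt_mul_div_succ N (by omega)
      nlinarith
    exact_mod_cast this
  have hlogM : Real.log N / 2 ≤ Real.log m := by
    have h5 := Real.log_le_log (by linarith) hsq
    rw [Real.log_pow] at h5
    push_cast at h5
    linarith
  have hpos : 0 < Real.log N / 2 := by linarith
  have hfrac : (m : ℝ) / (Real.log m) ^ (A + 1) ≤
      (N / M) / (Real.log N / 2) ^ (A + 1) :=
    div_le_div₀ (by positivity) hmN (by positivity)
      (pow_le_pow_left₀ hpos.le hlogM (A + 1))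
  have hc : (((Finset.Icc 1 N).filter (fun n => E (n % M) (n / M))).card : ℝ) ≤
      M + M * ((N / M) / (Real.log N / 2) ^ (A + 1)) := by
    have hsub : (Finset.Icc 1 N).filter (fun n => E (n % M) (n / M)) ⊆
        (Finset.range M).biUnion
          (fun r => (Finset.Icc 1 N).filter (fun n => n % M = r ∧ E r (n / M))) := by
      intro n hn
      rw [Finset.mem_filter] at hn
      rw [Finset.mem_biUnion]
      exact ⟨n % M, Finset.mem_range.2 (Nat.mod_lt _ (by omega)),
        Finset.mem_filter.2 ⟨hn.1, rfl, hn.2⟩⟩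
    have h5 := (Finset.card_le_card hsub).trans Finset.card_biUnion_le
    have h6 : ∑ r ∈ Finset.range M,
        ((Finset.Icc 1 N).filter (fun n => n % M = r ∧ E r (n / M))).card ≤
        ∑ r ∈ Finset.range M, (1 + ((Finset.Icc 1 m).filter (fun n => E r n)).card) := by
      refine Finset.sum_le_sum fun r _ => ?_
      rw [hm]
      exact count_one M (E r) r N
    have h7 : (((Finset.Icc 1 N).filter (fun n => E (n % M) (n / M))).card : ℝ) ≤
        ∑ r ∈ Finset.range M, (1 + (((Finset.Icc 1 m).filter (fun n => E r n)).card : ℝ)) := by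
      exact_mod_cast h5.trans h6
    refine h7.trans ?_
    calc ∑ r ∈ Finset.range M, (1 + (((Finset.Icc 1 m).filter (fun n => E r n)).card : ℝ)) ≤
        ∑ _r ∈ Finset.range M, (1 + (N / M) / (Real.log N / 2) ^ (A + 1)) :=
          Finset.sum_le_sum fun r hr => by
            have := (h1 r hr).trans hfrac
            linarith
      _ = M + M * ((N / M) / (Real.log N / 2) ^ (A + 1)) := by
          rw [Finset.sum_const, Finset.card_range, nsmul_eq_mul]
          ring
  have hL0 : 0 < (Real.log (N : ℝ)) ^ A := by positivity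
  have f1 : (M : ℝ) ≤ 1 / 2 * ((N : ℝ) / (Real.log N) ^ A) := by
    rw [Real.norm_of_nonneg hL0.le, Real.norm_of_nonneg (by linarith)] at ho
    rw [← mul_div_assoc, le_div_iff₀ hL0]
    calc (M : ℝ) * (Real.log N) ^ A ≤ M * (1 / (2 * M) * N) :=
          mul_le_mul_of_nonneg_left ho hM0.le
      _ = 1 / 2 * N := by field_simp
  have f2 : M * ((N / M) / (Real.log N / 2) ^ (A + 1)) ≤
      1 / 2 * ((N : ℝ) / (Real.log N) ^ A) := by
    have e : M * ((N / M : ℝ) / (Real.log N / 2) ^ (A + 1)) =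
        (2 ^ (A + 1) / Real.log N) * ((N : ℝ) / (Real.log N) ^ A) := by
      rw [div_pow, pow_succ (Real.log (N : ℝ)) A]
      field_simp
    rw [e]
    apply mul_le_mul_of_nonneg_right _ (by positivity)
    rw [div_le_iff₀ (by linarith)]
    have : (2 : ℝ) ^ (A + 2) = 2 * 2 ^ (A + 1) := by ring
    linarith
  linarith

end Pool.Agent.Lib.MP_6b8fc7_nt.CS
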