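import Pool.Agent.Lib.MP_6b8fc7_nt.CS.Final

set_option autoImplicit false

/-!
Cases in which there is no local obstruction.
-/

namespace Pool.Agent.Lib.MP_6b8fc7_nt.CS

open Finset

variable {K L : ℕ}

lemma Loc_of_dvd (h : Fin K → ℕ) (h' : Fin L → ℕ)
    (hh : ∀ p : ℕ, p.Prime → p ≤ 2 * K + L + 3 → (∀ i, p ∣ h i) ∧ ∀ j, p ∣ h' j)
    (n : ℕ) (hn : n % 6 = 1 ∨ n % 6 = 3) : Loc h h' n := by
  intro p hp hle
  have hpp : Prime (p : ℤ) := Nat.prime_iff_prime_int.1 hp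
  obtain ⟨x, hx1, hx2⟩ : ∃ x : ℤ, ¬ (p : ℤ) ∣ x ∧ ¬ (p : ℤ) ∣ (n : ℤ) - 2 * x ^ 2 := by
    by_cases h2 : p = 2
    · subst h2
      refine ⟨1, by norm_num, ?_⟩
      push_cast
      omega
    by_cases h3 : p = 3
    · subst h3
      refine ⟨1, by norm_num, ?_⟩
      push_cast
      omega
    have h5 : 3 < p := by
      have := hp.two_le
      omega
    by_cases hc : (p : ℤ) ∣ n - 2 * 1 ^ 2
    · refine ⟨2, ?_, fun hd => ?_⟩
      · intro hd
        have := Int.le_of_dvd (by norm_num) hd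
        omega
      · have h6 : (p : ℤ) ∣ 6 := by
          have h7 := dvd_sub hc hd
          have e : ((n : ℤ) - 2 * 1 ^ 2) - (n - 2 * 2 ^ 2) = 6 := by ring
          rwa [e] at h7
        have h7 : p ∣ 2 * 3 := by exact_mod_cast h6
        rcases (hp.dvd_mul).1 h7 with h | h
        · exact h2 ((Nat.prime_dvd_prime_iff_eq hp Nat.prime_two).1 h)
        · exact h3 ((Nat.prime_dvd_prime_iff_eq hp Nat.prime_three).1 h)
    · refine ⟨1, fun hd => ?_, hc⟩
      have := Int.le_of_dvd (by norm_num) hd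
      omega
  refine ⟨x, fun hd => ?_⟩
  unfold Q at hd
  rcases hpp.dvd_or_dvd hd with hd | hd
  · rcases hpp.dvd_or_dvd hd with hd | hd
    · rcases hpp.dvd_or_dvd hd with hd | hd
      · exact hx1 hd
      · exact hx2 hd
    · obtain ⟨i, _, hi⟩ := (Prime.dvd_finsetProd_iff hpp _).1 hd
      have h1 : (p : ℤ) ∣ (h i : ℤ) := Int.natCast_dvd_natCast.2 ((hh p hp hle).1 i)
      have h2 := dvd_sub hi h1
      have e : (n : ℤ) + h i - 2 * x ^ 2 - h i = n - 2 * x ^ 2 := by ring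
      rw [e] at h2
      exact hx2 h2
  · obtain ⟨j, _, hj⟩ := (Prime.dvd_finsetProd_iff hpp _).1 hd
    have h1 : (p : ℤ) ∣ (h' j : ℤ) := Int.natCast_dvd_natCast.2 ((hh p hp hle).2 j)
    have h2 := dvd_sub hj h1
    have e : x + (h' j : ℤ) - h' j = x := by ring
    rw [e] at h2
    exact hx1 h2

lemma Loc_twin (n : ℕ) (hn : n % 6 = 1) :
    Loc (K := 1) (L := 1) (fun _ => 2) (fun _ => 2) n := by
  intro p hp hle
  have hQ : ∀ x : ℤ, Q (K := 1) (L := 1) (fun _ => 2) (fun _ => 2) (n : ℤ) x =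
      x * (n - 2 * x ^ 2) * (n + 2 - 2 * x ^ 2) * (x + 2) := by
    intro x
    unfold Q
    simp
  have key : ∀ x : ℤ, ¬ (p : ℤ) ∣ x → ¬ (p : ℤ) ∣ n - 2 * x ^ 2 → ¬ (p : ℤ) ∣ n + 2 - 2 * x ^ 2 →
      ¬ (p : ℤ) ∣ x + 2 →
      ∃ x : ℤ, ¬ (p : ℤ) ∣ Q (K := 1) (L := 1) (fun _ => 2) (fun _ => 2) (n : ℤ) x := by
    intro x h1 h2 h3 h4
    refine ⟨x, fun hd => ?_⟩
    rw [hQ] at hd
    have hpp : Prime (p : ℤ) := Nat.prime_iff_prime_int.1 hp
    rcases hpp.dvd_or_dvd hd with hd | hd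
    · rcases hpp.dvd_or_dvd hd with hd | hd
      · rcases hpp.dvd_or_dvd hd with hd | hd
        · exact h1 hd
        · exact h2 hd
      · exact h3 hd
    · exact h4 hd
  have hle' : p ≤ 6 := by omega
  interval_cases p
  · exact absurd hp (by norm_num)
  · exact absurd hp (by norm_num)
  · apply key 1 <;> first | (push_cast; omega) | norm_num
  · apply key 2 <;> first | (push_cast; omega) | norm_num
  · exact absurd hp (by norm_num)
  · by_cases hc : n % 5 = 2 ∨ n % 5 = 0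
    · apply key 2 <;> first | (push_cast; omega) | norm_num
    · apply key 1 <;> first | (push_cast; omega) | norm_num
  · exact absurd hp (by norm_num)

end Pool.Agent.Lib.MP_6b8fc7_nt.CS
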